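import Pool.Agent.Helper18.FM.GoalsA
import Pool.Agent.Helper27.TRB.Vfun

/-!
# FM, packet FCH: the average of `tr (χ Q⁻¹)` (copy of `tch`, Helper27/TRB/Vfun.lean)
-/

open Complex Metric Set Filter Topology MeasureTheory
open scoped ContDiff ComplexConjugate ComplexOrder Manifold Matrix

namespace Pool.Agent.Helper30.FM.FCH

open Pool.Agent.Helper95.Lin Pool.Agent.Helper16.Abund Pool.Agent.Helper92.Orb
  Pool.Agent.Helper10.SP Pool.Agent.Helper95.RK Pool.Agent.Helper57.HS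
  Pool.Agent.Helper15.HS Pool.Agent.Helper15.GS Pool.Agent.Helper57.RBC
  Pool.Agent.Helper57.HX Pool.Agent.Helper16.HS.AYTP Pool.Agent.Helper27.TRB
open Pool.Agent.Helper10.RBC (dn S_RVZ)
open Pool.Agent.Helper95.HS (vol DensLe)
open Pool.Agent.Helper38.HS.QPD (kint LM_congr LM_sub_const cont_trace_mul trace_mul_nonneg')
open Pool.Agent.Helper56.HS.DBZ (contM cont_det cont_inv cont_trace trace_nonneg)

universe u

/-- FCH. -/
theorem t (hWIRT : S_WIRT) (hRHOI : S_RHOI.{u}) (hDETI : S_DETI.{u})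
    (hTRI : Pool.Agent.Helper95.HS.S_TRI.{u}) (hKETP : Pool.Agent.Helper95.HS.S_KETP.{u})
    (hNULL0 : Pool.Agent.Helper95.HS.S_NULL0.{u}) : Pool.Agent.Helper18.FM.S_FCH.{u} := by
  intro n m T G _ R H σ h χ μ ψ D κ hκ ε H' Q hε hH' hQ
  have hT := D.ket.et.isOpen
  have hQk := hQ.ket
  have hμ := D.c0
  have hI : InvF T R (fun x => (Matrix.trace (χ x * (Q x)⁻¹)).re) :=
    (hTRI T R Q hQk).1 χ D.pf.smooth D.pf.inv
  have h0 : ∀ x ∈ T, 0 ≤ (Matrix.trace (χ x * (Q x)⁻¹)).re := fun x hx =>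
    tr_mul_nonneg (D.pf.psd x hx) (hQk.posDef x hx).posSemidef.inv
  refine ⟨hI, h0, ?_⟩
  have hψ : InvF T R (fun y => μ * ψ y) := by
    refine ⟨contDiffOn_const.mul D.psi.1, fun γ x y hxy => ?_⟩
    have := D.psi.2 γ x y hxy
    simp only
    rw [this]
  have hD := hDETI T R Q hQk
  have hdc : ContinuousOn (fun x => (Q x).det.re) T := hD.2.1.continuousOn
  have hd0 : ∀ x ∈ T, 0 ≤ (Q x).det.re := fun x hx => (hD.1 x hx).2.1.le
  obtain ⟨hwi, hwr⟩ := (hRHOI T R H D.ket.et (her_ket D.ket)).2.2.2.2 Q (her_ket hQk)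
  set w : Cn n → ℝ := fun x => ld Q x - ld H x with hw
  set f : Cn n → ℝ := fun x => μ * w x + (-1) * (fun y => μ * ψ y) x with hf
  have hfi : InvF T R f := invF_lin hwi hψ μ (-1)
  have htrc : ContinuousOn (fun x => (trL Q f x).re) T :=
    ((hKETP T R D.ket.et).2.2 Q _ hQk hfi).1.1.continuousOn
  have htr0 := (hTRI T R Q hQk).2 κ hκ _ hfi
  have hV : 0 < vol T κ Q := (hNULL0 T R Q hQk κ hκ).1
  have key : avE T κ Q (fun x => (Matrix.trace (χ x * (Q x)⁻¹)).re) ≤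
      avE T κ Q (fun _ => (n : ℝ)) := by
    refine avE_le hT hκ.test hκ.nonneg hdc hd0 hI.1.continuousOn continuousOn_const htrc htr0
      (c := - (1 + μ)⁻¹) fun x hx => ?_
    have hQp := hQk.posDef x hx
    have hu : IsUnit (Q x).det := (Matrix.isUnit_iff_isUnit_det _).1 hQp.isUnit
    have e1 : LM f x = (μ : ℂ) • (Q x - (ε : ℂ) • H' x) - ((1 + μ : ℝ) : ℂ) • χ x := by
      rw [hf, Pool.Agent.Helper94.HS.LM_lin hWIRT hT hwi.1 hψ.1 μ (-1) hx]
      have h1 := hQ.eq x hx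
      rw [hwr x hx, smul_tw χ H' hε] at h1
      have h2 : LM w x = Q x - ((ε : ℂ) • H' x + χ x) - rho H x := by
        rw [← h1]; abel
      have h3 : LM (fun y => μ * ψ y) x = χ x - (μ : ℂ) • rho H x := by
        rw [D.chi' x hx]; abel
      rw [h2, h3]
      push_cast
      module
    have e2 : (trL Q f x).re = μ * (n - ε * (Matrix.trace (H' x * (Q x)⁻¹)).re) -
        (1 + μ) * (Matrix.trace (χ x * (Q x)⁻¹)).re := by
      unfold trL
      rw [e1, Matrix.trace_mul_comm, Matrix.sub_mul, Matrix.smul_mul, Matrix.sub_mul,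
        Matrix.smul_mul, Matrix.smul_mul, Matrix.mul_nonsing_inv _ hu, Matrix.trace_sub,
        Matrix.trace_smul, Matrix.trace_smul, Matrix.trace_sub, Matrix.trace_smul,
        Matrix.trace_one, Fintype.card_fin]
      simp only [Complex.sub_re, smul_eq_mul, Complex.re_ofReal_mul, Complex.natCast_re]
    have h3 : 0 ≤ (Matrix.trace (H' x * (Q x)⁻¹)).re :=
      tr_mul_nonneg (hH'.posDef x hx).posSemidef hQp.posSemidef.inv
    rw [e2]
    have h4 : 0 < 1 + μ := by linarith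
    have h5 : (1 + μ)⁻¹ * (1 + μ) = 1 := inv_mul_cancel₀ h4.ne'
    have h6 : (n : ℝ) + - (1 + μ)⁻¹ * (μ * (n - ε * (Matrix.trace (H' x * (Q x)⁻¹)).re) -
        (1 + μ) * (Matrix.trace (χ x * (Q x)⁻¹)).re) = (Matrix.trace (χ x * (Q x)⁻¹)).re +
        (1 + μ)⁻¹ * (n + μ * (ε * (Matrix.trace (H' x * (Q x)⁻¹)).re)) := by
      field_simp
      ring
    rw [h6]
    have h7 : 0 ≤ (1 + μ)⁻¹ * (n + μ * (ε * (Matrix.trace (H' x * (Q x)⁻¹)).re)) := by
      positivity
    linarith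
  refine key.trans (le_of_eq ?_)
  have h1 : avE T κ Q (fun _ => (n : ℝ)) = n * avE T κ Q (fun _ => 1) := by
    rw [← avE_const_mul]
    simp
  have h2 : avE T κ Q (fun _ => 1) = 1 := by
    unfold avE
    rw [itg_one]
    exact div_self hV.ne'
  rw [h1, h2, mul_one]

end Pool.Agent.Helper30.FM.FCH
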